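import Mathlib
import Pool.Agent.H930.IsoWalk

set_option autoImplicit false

/-!
# Isolation thresholds of graphs of bounded bandwidth

For every finite graph `H` of bandwidth at most `b ≥ 1` there are infinitely many connected graphs `G` with
`ι(G, {H}) ≥ |V(G)| / (10 b)`. In particular a threshold `c(P_k)`, if it exists, is at least `1/10` for
every `k`, and a threshold `c(C_k)`, if it exists, is at least `1/20` for every `k`: unlike the thresholds
of the stars `K_{1,k}` these constants do not tend to `0`.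
-/

namespace Pool.Agent.Results.MP_a20daa_co.BandwidthLowerBound

open Pool.Agent.H930

/-- `D` is `{H}`-isolating in `G`: the graph `G - N[D]` has no subgraph isomorphic to `H`. -/
def Isolating {W V : Type} (H : SimpleGraph W) (G : SimpleGraph V) (D : Finset V) : Prop :=
  ¬ ∃ f : H →g G, Function.Injective f ∧ ∀ x : W, f x ∉ D ∧ ∀ d ∈ D, ¬ G.Adj d (f x)

/-- The `{H}`-isolation number `ι(G, {H})` of a graph `G` on `n` vertices. -/
noncomputable def iota {W : Type} (H : SimpleGraph W) {n : ℕ} (G : SimpleGraph (Fin n)) : ℕ :=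
  sInf {m : ℕ | ∃ D : Finset (Fin n), D.card = m ∧ Isolating H G D}

/-- `α` is a threshold for `{H}`: only finitely many connected graphs have `ι > ⌊α n⌋`, and infinitely
many have `ι = ⌊α n⌋`. -/
def IsThreshold {W : Type} (H : SimpleGraph W) (α : ℝ) : Prop :=
  0 < α ∧
  {p : Σ n : ℕ, SimpleGraph (Fin n) | p.2.Connected ∧ ⌊α * (p.1 : ℝ)⌋₊ < iota H p.2}.Finite ∧
  {p : Σ n : ℕ, SimpleGraph (Fin n) | p.2.Connected ∧ iota H p.2 = ⌊α * (p.1 : ℝ)⌋₊}.Infinite

/-- The bandwidth of the graph `H` is at most `b`: its vertices have distinct labels below some number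
such that the labels of adjacent vertices differ by at most `b`. -/
def BandwidthLE {W : Type} (H : SimpleGraph W) (b : ℕ) : Prop :=
  ∃ (M : ℕ) (φ : W → ℕ), Function.Injective φ ∧ (∀ w, φ w < M) ∧ ∀ u v, H.Adj u v → φ u ≤ φ v + b

/-- every vertex of the cubic graph is replaced by a clique with `b` vertices -/
def blow (L b : ℕ) : SimpleGraph (Gam L × Fin b) where
  Adj p q := (cay L).Adj p.1 q.1 ∨ (p.1 = q.1 ∧ p.2 ≠ q.2)
  symm := ⟨fun p q h => h.elim (fun h => Or.inl h.symm) (fun h => Or.inr ⟨h.1.symm, h.2.symm⟩)⟩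
  loopless := ⟨fun p h => h.elim (fun h => h.ne rfl) (fun h => h.2 rfl)⟩

theorem blow_connected (L b : ℕ) (hb : 1 ≤ b) : (blow L b).Connected := by
  have h1 : ∀ (x : Gam L) (a c : Fin b), (blow L b).Reachable (x, a) (x, c) := by
    intro x a c
    by_cases h : a = c
    · subst h
      exact SimpleGraph.Reachable.refl _
    · exact SimpleGraph.Adj.reachable (Or.inr ⟨rfl, h⟩)
  have h2 : ∀ (x y : Gam L) (w : (cay L).Walk x y) (a c : Fin b),
      (blow L b).Reachable (x, a) (y, c) := by
    intro x y w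
    induction w with
    | nil => exact fun a c => h1 _ a c
    | @cons u v z hadj w ih =>
      intro a c
      have h3 : (blow L b).Adj (u, a) (v, a) := Or.inl hadj
      exact h3.reachable.trans (ih a c)
  refine (SimpleGraph.connected_iff _).2 ⟨fun p q => ?_, ⟨(1, ⟨0, hb⟩)⟩⟩
  obtain ⟨w⟩ := (cay_connected L).preconnected p.1 q.1
  exact h2 p.1 q.1 w p.2 q.2

theorem blow_bound {W : Type} (H : SimpleGraph W) (b : ℕ) (hb : 1 ≤ b) (M : ℕ) (φ : W → ℕ)
    (hφ : Function.Injective φ) (hM : ∀ w, φ w < M) (hband : ∀ u v, H.Adj u v → φ u ≤ φ v + b)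
    (L : ℕ) (hL : M ≤ L) (hL1 : 1 ≤ L) (D : Finset (Gam L × Fin b)) (hD : Isolating H (blow L b) D) :
    Fintype.card (Gam L × Fin b) ≤ 10 * b * D.card := by
  classical
  have hbpos : 0 < b := hb
  have h1 := count (st L) (st_st L) (D.image Prod.fst) (by
    intro S hS hSn
    by_contra hcon
    push Not at hcon
    obtain ⟨f, c, hf1, hf2, hf3⟩ := exists_walk (st L) S hSn (fun x hx => by
      have := hcon x hx
      omega)
    apply hD
    have hdiv : ∀ w, φ w / b < M := fun w => lt_of_le_of_lt (Nat.div_le_self _ _) (hM w)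
    have hinj : ∀ i j : ℕ, i < M → j < M → f i = f j → i = j := by
      intro i j hi hj he
      rcases lt_trichotomy i j with h | h | h
      · exact absurd he.symm (no_return L f c hf2 hf3 i j h (by omega))
      · exact h
      · exact absurd he (no_return L f c hf2 hf3 j i h (by omega))
    have hadj : ∀ i, (cay L).Adj (f i) (f (i + 1)) := fun i => by
      rw [hf2]
      exact adj_st L hL1 _ _
    have hhom : ∀ u v, H.Adj u v → φ u < φ v →
        (blow L b).Adj (f (φ u / b), ⟨φ u % b, Nat.mod_lt _ hbpos⟩)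
          (f (φ v / b), ⟨φ v % b, Nat.mod_lt _ hbpos⟩) := by
      intro u v huv hlt
      have h2 := hband v u huv.symm
      have e1 := Nat.div_add_mod (φ u) b
      have e2 := Nat.div_add_mod (φ v) b
      have m1 := Nat.mod_lt (φ u) hbpos
      have m2 := Nat.mod_lt (φ v) hbpos
      have hle : φ u / b ≤ φ v / b := Nat.div_le_div_right hlt.le
      have hle2 : φ v / b ≤ φ u / b + 1 := by
        calc φ v / b ≤ (φ u + b) / b := Nat.div_le_div_right h2
          _ = φ u / b + 1 := Nat.add_div_right _ hbpos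
      by_cases h3 : φ u / b = φ v / b
      · refine Or.inr ⟨?_, ?_⟩
        · show f (φ u / b) = f (φ v / b)
          rw [h3]
        · intro h4
          have h5 : φ u % b = φ v % b := congrArg Fin.val h4
          rw [h3] at e1
          omega
      · have h4 : φ v / b = φ u / b + 1 := by omega
        refine Or.inl ?_
        show (cay L).Adj (f (φ u / b)) (f (φ v / b))
        rw [h4]
        exact hadj _
    refine ⟨⟨fun w => (f (φ w / b), ⟨φ w % b, Nat.mod_lt _ hbpos⟩), ?_⟩, ?_, ?_⟩
    · intro u v huv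
      rcases lt_trichotomy (φ u) (φ v) with h | h | h
      · exact hhom u v huv h
      · exact absurd (hφ h) huv.ne
      · exact (hhom v u huv.symm h).symm
    · intro u v huv
      have h2 : f (φ u / b) = f (φ v / b) := congrArg Prod.fst huv
      have h3 : (⟨φ u % b, Nat.mod_lt _ hbpos⟩ : Fin b) = ⟨φ v % b, Nat.mod_lt _ hbpos⟩ :=
        congrArg Prod.snd huv
      have h4 := hinj _ _ (hdiv u) (hdiv v) h2
      have h5 : φ u % b = φ v % b := congrArg Fin.val h3
      apply hφ
      have e1 := Nat.div_add_mod (φ u) b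
      have e2 := Nat.div_add_mod (φ v) b
      rw [h4, h5] at e1
      exact e1.symm.trans e2
    · intro w
      obtain ⟨h2, h3⟩ := hS _ (hf1 (φ w / b))
      refine ⟨fun h => h2 (Finset.mem_image.2 ⟨_, h, rfl⟩), ?_⟩
      rintro ⟨x, a⟩ hd (⟨-, i, hi⟩ | ⟨hi, -⟩)
      · apply h3 i
        have hi' : f (φ w / b) = st L i x := hi
        rw [hi', st_st]
        exact Finset.mem_image.2 ⟨_, hd, rfl⟩
      · apply h2
        have hi' : x = f (φ w / b) := hi
        rw [← hi']
        exact Finset.mem_image.2 ⟨_, hd, rfl⟩)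
  have h2 : (D.image Prod.fst).card ≤ D.card := Finset.card_image_le
  rw [Fintype.card_prod, Fintype.card_fin]
  calc Fintype.card (Gam L) * b ≤ (10 * D.card) * b := by
        apply Nat.mul_le_mul_right
        exact h1.trans (Nat.mul_le_mul_left 10 h2)
    _ = 10 * b * D.card := by ring

theorem card_large (L : ℕ) (hL : 1 ≤ L) : L ≤ Fintype.card (Gam L) := by
  classical
  let c : ℕ → Fin 3 := fun t => if t % 2 = 0 then 0 else 1
  let f : ℕ → Gam L := fun t => Nat.rec (motive := fun _ => Gam L) 1 (fun t x => st L (c t) x) t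
  have hf : ∀ t, f (t + 1) = st L (c t) (f t) := fun t => rfl
  have hc : ∀ t, c (t + 1) ≠ c t := by
    intro t
    simp only [c]
    rcases Nat.mod_two_eq_zero_or_one t with h | h
    · have : (t + 1) % 2 = 1 := by omega
      rw [h, this]
      decide
    · have : (t + 1) % 2 = 0 := by omega
      rw [h, this]
      decide
  have hinj : Function.Injective (fun i : Fin L => f i.1) := by
    intro i j he
    have he' : f i.1 = f j.1 := he
    apply Fin.ext
    rcases lt_trichotomy i.1 j.1 with h | h | h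
    · exact absurd he'.symm (no_return L f c hf hc i.1 j.1 h (by omega))
    · exact h
    · exact absurd he' (no_return L f c hf hc j.1 i.1 h (by omega))
  simpa using Fintype.card_le_of_injective _ hinj

theorem many {W : Type} (H : SimpleGraph W) (b : ℕ) (hb : 1 ≤ b) (hH : BandwidthLE H b) (N : ℕ) :
    ∃ n, N ≤ n ∧ ∃ G : SimpleGraph (Fin n), G.Connected ∧
      ∀ D : Finset (Fin n), Isolating H G D → n ≤ 10 * b * D.card := by
  classical
  obtain ⟨M, φ, hφ, hM, hband⟩ := hH
  set L := N + M + 1 with hL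
  let e : Gam L × Fin b ≃ Fin (Fintype.card (Gam L × Fin b)) := Fintype.equivFin _
  refine ⟨Fintype.card (Gam L × Fin b), ?_, (blow L b).map e.toEmbedding, ?_, ?_⟩
  · rw [Fintype.card_prod, Fintype.card_fin]
    have h1 := card_large L (by omega)
    nlinarith
  · have i : blow L b ≃g (blow L b).map e.toEmbedding := SimpleGraph.Iso.map e (blow L b)
    exact (SimpleGraph.Iso.connected_iff i).1 (blow_connected L b hb)
  · intro D hD
    have h1 := blow_bound H b hb M φ hφ hM hband L (by omega) (by omega) (D.map e.symm.toEmbedding) (by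
      rintro ⟨f, hf, hf2⟩
      apply hD
      refine ⟨⟨fun w => e (f w), ?_⟩, ?_, ?_⟩
      · intro u v huv
        exact (SimpleGraph.map_adj_apply (f := e.toEmbedding)).2 (f.map_rel huv)
      · intro u v huv
        exact hf (e.injective huv)
      · intro w
        obtain ⟨h2, h3⟩ := hf2 w
        refine ⟨fun h => h2 (Finset.mem_map.2 ⟨_, h, e.symm_apply_apply _⟩), ?_⟩
        intro d hd hadj
        apply h3 (e.symm d) (Finset.mem_map.2 ⟨d, hd, rfl⟩)
        have h4 : ((blow L b).map e.toEmbedding).Adj (e.toEmbedding (e.symm d)) (e.toEmbedding (f w)) := by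
          have : e.toEmbedding (e.symm d) = d := e.apply_symm_apply d
          rw [this]
          exact hadj
        exact (SimpleGraph.map_adj_apply (f := e.toEmbedding)).1 h4)
    rwa [Finset.card_map] at h1

theorem iota_spec {W : Type} [Nonempty W] (H : SimpleGraph W) {n : ℕ} (G : SimpleGraph (Fin n)) :
    ∃ D : Finset (Fin n), D.card = iota H G ∧ Isolating H G D := by
  have h : {m : ℕ | ∃ D : Finset (Fin n), D.card = m ∧ Isolating H G D}.Nonempty := by
    refine ⟨_, Finset.univ, rfl, ?_⟩
    rintro ⟨f, -, hf⟩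
    obtain ⟨w⟩ := (inferInstance : Nonempty W)
    exact (hf w).1 (Finset.mem_univ _)
  exact Nat.sInf_mem h

theorem infinite_of {W : Type} [Nonempty W] (H : SimpleGraph W) (b : ℕ) (hb : 1 ≤ b)
    (hH : BandwidthLE H b) :
    {p : Σ n : ℕ, SimpleGraph (Fin n) | p.2.Connected ∧ 1 ≤ p.1 ∧ p.1 ≤ 10 * b * iota H p.2}.Infinite := by
  intro hfin
  have h1 := (hfin.image (fun p => p.1)).bddAbove
  obtain ⟨B, hB⟩ := h1
  obtain ⟨n, hn, G, hG, hGD⟩ := many H b hb hH (B + 1)
  obtain ⟨D, hD1, hD2⟩ := iota_spec H G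
  have h2 := hGD D hD2
  rw [hD1] at h2
  have h3 : n ≤ B := hB ⟨⟨n, G⟩, ⟨hG, by show 1 ≤ n; omega, h2⟩, rfl⟩
  omega

theorem threshold_of {W : Type} [Nonempty W] (H : SimpleGraph W) (b : ℕ) (hb : 1 ≤ b)
    (hH : BandwidthLE H b) (α : ℝ) (hα : IsThreshold H α) : 1 / (10 * (b : ℝ)) ≤ α := by
  by_contra hlt
  push Not at hlt
  obtain ⟨h0, hfin, -⟩ := hα
  refine infinite_of H b hb hH (hfin.subset ?_)
  rintro ⟨n, G⟩ ⟨h1, h2, h3⟩
  refine ⟨h1, ?_⟩
  simp only at h2 h3 ⊢
  have hb' : (0 : ℝ) < b := by exact_mod_cast hb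
  have hn : (1 : ℝ) ≤ n := by exact_mod_cast h2
  have h4 : (n : ℝ) ≤ 10 * b * (iota H G : ℝ) := by exact_mod_cast h3
  have h5 : α * n < iota H G := by
    have h6 : α * n < 1 / (10 * (b : ℝ)) * n := by
      apply mul_lt_mul_of_pos_right hlt
      linarith
    have h7 : 1 / (10 * (b : ℝ)) * n ≤ iota H G := by
      rw [one_div, inv_mul_le_iff₀ (by positivity)]
      exact h4
    linarith
  have h8 : ((⌊α * (n : ℝ)⌋₊ : ℕ) : ℝ) ≤ α * n := Nat.floor_le (by positivity)
  exact_mod_cast lt_of_le_of_lt h8 h5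

theorem path_band (k : ℕ) : BandwidthLE (SimpleGraph.pathGraph k) 1 := by
  refine ⟨k, fun i => i.1, Fin.val_injective, fun i => i.2, fun u v huv => ?_⟩
  rw [SimpleGraph.pathGraph_adj] at huv
  show u.1 ≤ v.1 + 1
  omega

theorem cycle_band (k : ℕ) : BandwidthLE (SimpleGraph.cycleGraph k) 2 := by
  refine ⟨k, fun i => if 2 * i.1 < k then 2 * i.1 else 2 * (k - i.1) - 1, ?_, ?_, ?_⟩
  · intro i j hij
    have hi := i.2
    have hj := j.2
    simp only at hij
    apply Fin.ext
    split_ifs at hij <;> omega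
  · intro i
    have hi := i.2
    simp only
    split_ifs <;> omega
  · have key : ∀ u v : Fin k, (u - v).val = 1 → u.1 = v.1 + 1 ∨ (u.1 = 0 ∧ v.1 = k - 1) := by
      intro u v h
      have hu := u.2
      have hv := v.2
      rw [Fin.sub_def] at h
      simp only at h
      by_cases h1 : k - v.1 + u.1 < k
      · rw [Nat.mod_eq_of_lt h1] at h
        omega
      · rw [Nat.mod_eq_sub_mod (by omega), Nat.mod_eq_of_lt (by omega)] at h
        omega
    intro u v huv
    have hu := u.2
    have hv := v.2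
    rw [SimpleGraph.cycleGraph_adj'] at huv
    simp only
    rcases huv with h | h
    · rcases key u v h with h1 | h1 <;> split_ifs <;> omega
    · rcases key v u h with h1 | h1 <;> split_ifs <;> omega

/-- (1) For every graph `H` of bandwidth at most `b ≥ 1` with at least one vertex there are infinitely many
connected graphs with `ι ≥ n / (10 b)`, `n` the number of vertices, and every threshold for `{H}` is at
least `1 / (10 b)`; (2) for every `k ≥ 1` there are infinitely many connected graphs with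
`ι(G, {P_k}) ≥ n / 10`, and every threshold for `{P_k}` is at least `1 / 10`; (3) for every `k ≥ 3` there
are infinitely many connected graphs with `ι(G, {C_k}) ≥ n / 20`, and every threshold for `{C_k}` is at
least `1 / 20`. -/
theorem result :
    (∀ (W : Type) [Nonempty W] (H : SimpleGraph W) (b : ℕ), 1 ≤ b → BandwidthLE H b →
      {p : Σ n : ℕ, SimpleGraph (Fin n) | p.2.Connected ∧ 1 ≤ p.1 ∧ p.1 ≤ 10 * b * iota H p.2}.Infinite ∧
      ∀ α : ℝ, IsThreshold H α → 1 / (10 * (b : ℝ)) ≤ α) ∧
    (∀ k : ℕ, 1 ≤ k →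
      {p : Σ n : ℕ, SimpleGraph (Fin n) | p.2.Connected ∧ 1 ≤ p.1 ∧
        p.1 ≤ 10 * iota (SimpleGraph.pathGraph k) p.2}.Infinite ∧
      ∀ α : ℝ, IsThreshold (SimpleGraph.pathGraph k) α → 1 / 10 ≤ α) ∧
    (∀ k : ℕ, 3 ≤ k →
      {p : Σ n : ℕ, SimpleGraph (Fin n) | p.2.Connected ∧ 1 ≤ p.1 ∧
        p.1 ≤ 20 * iota (SimpleGraph.cycleGraph k) p.2}.Infinite ∧
      ∀ α : ℝ, IsThreshold (SimpleGraph.cycleGraph k) α → 1 / 20 ≤ α) := by
  refine ⟨fun W _ H b hb hH => ⟨infinite_of H b hb hH, threshold_of H b hb hH⟩, ?_, ?_⟩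
  · intro k hk
    have : Nonempty (Fin k) := ⟨⟨0, hk⟩⟩
    refine ⟨by simpa using infinite_of (SimpleGraph.pathGraph k) 1 le_rfl (path_band k), fun α hα => ?_⟩
    have := threshold_of (SimpleGraph.pathGraph k) 1 le_rfl (path_band k) α hα
    norm_num at this ⊢
    exact this
  · intro k hk
    have : Nonempty (Fin k) := ⟨⟨0, by omega⟩⟩
    refine ⟨by simpa using infinite_of (SimpleGraph.cycleGraph k) 2 (by norm_num) (cycle_band k),
      fun α hα => ?_⟩
    have := threshold_of (SimpleGraph.cycleGraph k) 2 (by norm_num) (cycle_band k) α hα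
    norm_num at this ⊢
    exact this

end Pool.Agent.Results.MP_a20daa_co.BandwidthLowerBound
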